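import Pool.Agent.J4.H69.BK.Main
import Pool.Agent.Y320.BP.Main

/-!
Isomorphic embeddings between the spaces `C(B(κ)^I)`, `I` countable, `κ` uncountable.
-/

set_option autoImplicit false

namespace Pool.Agent.J4.H69.BK

open Pool.Agent.Helper358.LOne Pool.Agent.Y320.BP Cardinal Topology

universe u

/-- `C(B(κ)^n)` does not embed into `C(B(Λ)^m)` for `m < n`. -/
theorem fin_not {κ : Type u} (Λ : Type u) (hκ : Uncountable κ) {m n : ℕ} (hmn : m < n) :
    ¬ Emb C(Fin n → Ball κ, ℝ) C(Fin m → Ball Λ, ℝ) := by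
  intro h
  have h0 : ℵ₀ ≤ #κ := (aleph0_lt hκ).le
  have h1 : Emb C(Fin (m + 1) → Ball κ, ℝ) C(Fin n → Ball κ, ℝ) :=
    emb_pow le_rfl (Fin.castLEEmb hmn)
  obtain ⟨D, hD, hDc⟩ := exists_dense_ball (Fin (m + 1)) κ
  rw [max_eq_left h0] at hDc
  obtain ⟨T, c, hc, hT⟩ := reduce h0 D hD hDc (h1.trans h)
  exact no_embedding m T hc hT

/-- Embeddings of countable powers. -/
theorem emb_iff (κ Λ : Type u) (I J : Type) (hκ : Uncountable κ) (hI : Nonempty I)
    (_ : Countable I) (_ : Countable J) :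
    Emb C(I → Ball κ, ℝ) C(J → Ball Λ, ℝ) ↔ #κ ≤ #Λ ∧ #I ≤ #J := by
  constructor
  · intro h
    refine ⟨card_le hκ (Classical.arbitrary I) h, ?_⟩
    by_contra hIJ
    rw [not_le] at hIJ
    have hJ : Finite J := by
      rw [← lt_aleph0_iff_finite]
      exact hIJ.trans_le mk_le_aleph0
    have := Fintype.ofFinite J
    have h3 : ((Fintype.card J + 1 : ℕ) : Cardinal) ≤ #I := by
      rw [Nat.cast_succ, ← mk_fintype]
      exact Order.succ_le_of_lt hIJ |>.trans' (by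
        rw [mk_fintype, ← Nat.cast_succ, succ_natCast, Nat.cast_succ])
    have h4 : #(Fin (Fintype.card J + 1)) ≤ #I := by
      rwa [mk_fin]
    obtain ⟨g⟩ : Nonempty (Fin (Fintype.card J + 1) ↪ I) := h4
    have h1 : Emb C(Fin (Fintype.card J + 1) → Ball κ, ℝ) C(I → Ball κ, ℝ) := emb_pow le_rfl g
    have h2 : Emb C(J → Ball Λ, ℝ) C(Fin (Fintype.card J) → Ball Λ, ℝ) :=
      emb_pow le_rfl (Fintype.equivFin J).toEmbedding
    exact fin_not Λ hκ (Nat.lt_succ_self _) ((h1.trans h).trans h2)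
  · rintro ⟨h, ⟨f⟩⟩
    exact emb_pow h f

/-- Isomorphisms of countable powers. -/
theorem equiv_iff (κ Λ : Type u) (I J : Type) (hκ : Uncountable κ) (hI : Nonempty I)
    (hIc : Countable I) (hJc : Countable J) :
    Nonempty (C(I → Ball κ, ℝ) ≃L[ℝ] C(J → Ball Λ, ℝ)) ↔ #κ = #Λ ∧ #I = #J := by
  constructor
  · rintro ⟨e⟩
    obtain ⟨h1, h2⟩ := (emb_iff κ Λ I J hκ hI hIc hJc).mp (emb_of_equiv e)
    have hJ : Nonempty J := by
      obtain ⟨f⟩ := h2
      exact ⟨f (Classical.arbitrary I)⟩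
    have hΛ : Uncountable Λ := by
      rw [← Cardinal.aleph0_lt_mk_iff]
      exact (aleph0_lt hκ).trans_le h1
    obtain ⟨h3, h4⟩ := (emb_iff Λ κ J I hΛ hJ hJc hIc).mp (emb_of_equiv e.symm)
    exact ⟨le_antisymm h1 h3, le_antisymm h2 h4⟩
  · rintro ⟨h1, h2⟩
    obtain ⟨e⟩ := Cardinal.eq.mp h1
    obtain ⟨f⟩ := Cardinal.eq.mp h2
    exact equiv_pow e f

end Pool.Agent.J4.H69.BK
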