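import Mathlib

/-!
Words on an alphabet with `m + 1` letters and `m` decreasing sequences.
-/

set_option autoImplicit false

namespace Pool.Agent.J4.H69.BK

open Finset

/-- The condition on the decreasing sequences `τ k` along the word `w`; the letters have a
remaining capacity, `c` after the end of the word. -/
def Hvy {m n : ℕ} (A : ℝ) (w : List (Fin n)) (c : Fin n → ℕ) (τ : Fin m → ℕ → ℝ) : Prop :=
  ∀ (j l : ℕ) (hl : l < w.length), j ≤ l → ∃ k, τ k j <
    (A * ((c (w[l]) + (w.drop j).count (w[l]) : ℕ) : ℝ) + 1) * (τ k l - τ k (l + 1))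

/-- the factors -/
noncomputable def th (A : ℝ) (x : ℕ) : ℝ := 1 - 1 / (A * x + 1)

theorem th_nonneg {A : ℝ} (hA : 0 ≤ A) (x : ℕ) : 0 ≤ th A x := by
  unfold th
  have h1 : (1 : ℝ) ≤ A * x + 1 := by
    have : 0 ≤ A * x := by positivity
    linarith
  have h2 : 1 / (A * x + 1) ≤ 1 := by
    rw [div_le_one (by linarith)]
    exact h1
  linarith

theorem th_le_one {A : ℝ} (hA : 0 ≤ A) (x : ℕ) : th A x ≤ 1 := by
  unfold th
  have h2 : 0 ≤ 1 / (A * x + 1) := by positivity
  linarith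

theorem exists_prod_small {A : ℝ} (hA : 0 ≤ A) (c : ℕ) (B : ℝ) (hB : 0 < B) :
    ∃ r : ℕ, B * ∏ l ∈ range (r + 1), th A (c + l + 1) < 1 := by
  set q : ℝ := A * (c + 1) + 1 with hq
  have hq0 : 0 < q := by positivity
  have h1 : ∀ l : ℕ, th A (c + l + 1) ≤ Real.exp (-(1 / q * (1 / ((l : ℝ) + 1)))) := by
    intro l
    have h2 : th A (c + l + 1) ≤ Real.exp (-(1 / (A * ((c + l + 1 : ℕ) : ℝ) + 1))) := by
      unfold th
      have := Real.add_one_le_exp (-(1 / (A * ((c + l + 1 : ℕ) : ℝ) + 1)))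
      linarith
    refine h2.trans (Real.exp_le_exp.mpr (neg_le_neg ?_))
    rw [one_div_mul_one_div]
    refine one_div_le_one_div_of_le (by positivity) ?_
    push_cast
    rw [hq]
    have hl : (0 : ℝ) ≤ l := Nat.cast_nonneg l
    have hc : (0 : ℝ) ≤ c := Nat.cast_nonneg c
    have h3 : 0 ≤ A * (c : ℝ) * l := by positivity
    nlinarith
  have h2 := Real.tendsto_sum_range_one_div_nat_succ_atTop
  obtain ⟨r, hr⟩ := ((h2.eventually_gt_atTop (q * (Real.log B + 1))).and
    (Filter.eventually_ge_atTop 1)).exists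
  obtain ⟨hr1, hr2⟩ := hr
  obtain ⟨r', rfl⟩ : ∃ r', r = r' + 1 := ⟨r - 1, by omega⟩
  refine ⟨r', ?_⟩
  have h3 : ∏ l ∈ range (r' + 1), th A (c + l + 1) ≤
      ∏ l ∈ range (r' + 1), Real.exp (-(1 / q * (1 / ((l : ℝ) + 1)))) :=
    prod_le_prod (fun l _ => th_nonneg hA _) fun l _ => h1 l
  rw [← Real.exp_sum, sum_neg_distrib, ← mul_sum] at h3
  have h4 : B * ∏ l ∈ range (r' + 1), th A (c + l + 1) ≤
      Real.exp (Real.log B) * Real.exp (-(1 / q * ∑ i ∈ range (r' + 1), 1 / ((i : ℝ) + 1))) := by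
    rw [Real.exp_log hB]
    exact mul_le_mul_of_nonneg_left h3 hB.le
  refine h4.trans_lt ?_
  rw [← Real.exp_add, Real.exp_lt_one_iff]
  have h5 : Real.log B + 1 < 1 / q * ∑ i ∈ range (r' + 1), 1 / ((i : ℝ) + 1) := by
    rw [one_div, inv_mul_eq_div, lt_div_iff₀ hq0]
    linarith
  linarith

/-- The statement of level `u`. -/
def PP (m n : ℕ) (A : ℝ) (u : ℕ) : Prop :=
  ∀ (K : ℝ) (c : Fin n → ℕ), 1 ≤ K → ∃ w : List (Fin n), (∀ v ∈ w, v.val < u) ∧
    ∀ τ : Fin m → ℕ → ℝ, (∀ k, Antitone (τ k)) → (∀ k i, 0 ≤ τ k i) → Hvy A w c τ →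
      ∃ j ≤ w.length, ∃ 𝒦 : Finset (Fin m), #𝒦 = u ∧ ∀ k ∈ 𝒦, K * τ k w.length ≤ τ k j

theorem PP_zero (m n : ℕ) (A : ℝ) : PP m n A 0 := fun K c _ =>
  ⟨[], by simp, fun τ _ _ _ => ⟨0, le_rfl, ∅, rfl, by simp⟩⟩

/-- Restriction of the condition to an initial part. -/
theorem Hvy.left {m n : ℕ} {A : ℝ} {w w' : List (Fin n)} {c : Fin n → ℕ} {τ : Fin m → ℕ → ℝ}
    (h : Hvy A (w ++ w') c τ) : Hvy A w (fun x => c x + w'.count x) τ := by
  intro j l hl hjl
  have hl' : l < (w ++ w').length := by rw [List.length_append]; omega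
  obtain ⟨k, hk⟩ := h j l hl' hjl
  refine ⟨k, ?_⟩
  have h1 : (w ++ w')[l] = w[l] := List.getElem_append_left hl
  rw [h1] at hk
  have h2 : (w ++ w').drop j = w.drop j ++ w' := List.drop_append_of_le_length (by omega)
  rw [h2, List.count_append] at hk
  have h3 : c w[l] + w'.count w[l] + (w.drop j).count w[l] =
      c w[l] + ((w.drop j).count w[l] + w'.count w[l]) := by ring
  rw [h3]
  exact hk

/-- Restriction of the condition to a final part. -/
theorem Hvy.right {m n : ℕ} {A : ℝ} {w w' : List (Fin n)} {c : Fin n → ℕ} {τ : Fin m → ℕ → ℝ}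
    (h : Hvy A (w ++ w') c τ) : Hvy A w' c (fun k i => τ k (w.length + i)) := by
  intro j l hl hjl
  have hl' : w.length + l < (w ++ w').length := by rw [List.length_append]; omega
  obtain ⟨k, hk⟩ := h (w.length + j) (w.length + l) hl' (by omega)
  refine ⟨k, ?_⟩
  have h1 : (w ++ w')[w.length + l] = w'[l] := by
    rw [List.getElem_append_right (by omega)]
    congr 1
    omega
  rw [h1] at hk
  have h2 : (w ++ w').drop (w.length + j) = w'.drop j := by
    rw [List.drop_append]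
    simp
  rw [h2] at hk
  exact hk

/-- Analysis of the first block. -/
theorem first_block {m n : ℕ} {A : ℝ} (hA : 0 ≤ A) {u : ℕ} {v : Fin n} {W w' : List (Fin n)}
    {c : Fin n → ℕ} {K' : ℝ}
    (hWv : v ∉ W) (hK' : A * ((c v + w'.count v + 1 : ℕ) : ℝ) + 1 ≤ K')
    (hW : ∀ τ : Fin m → ℕ → ℝ, (∀ k, Antitone (τ k)) → (∀ k i, 0 ≤ τ k i) →
      Hvy A W (fun x => c x + (v :: w').count x) τ →
      ∃ j ≤ W.length, ∃ 𝒦 : Finset (Fin m), #𝒦 = u ∧ ∀ k ∈ 𝒦, K' * τ k W.length ≤ τ k j)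
    (τ : Fin m → ℕ → ℝ) (hτ : ∀ k, Antitone (τ k)) (hτ0 : ∀ k i, 0 ≤ τ k i)
    (h : Hvy A (W ++ v :: w') c τ) :
    ∃ j ≤ W.length, ∃ 𝒦 : Finset (Fin m), #𝒦 = u ∧ (∀ k ∈ 𝒦, K' * τ k W.length ≤ τ k j) ∧
      ∃ k ∉ 𝒦, τ k (W.length + 1) ≤ th A (c v + w'.count v + 1) * τ k W.length := by
  obtain ⟨j, hj, 𝒦, h𝒦, hj𝒦⟩ := hW τ hτ hτ0 h.left
  refine ⟨j, hj, 𝒦, h𝒦, hj𝒦, ?_⟩
  have hl : W.length < (W ++ v :: w').length := by simp
  obtain ⟨k, hk⟩ := h j W.length hl hj
  have h1 : (W ++ v :: w')[W.length] = v := by simp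
  rw [h1] at hk
  have h2 : (W ++ v :: w').drop j = W.drop j ++ v :: w' := List.drop_append_of_le_length hj
  have h3 : (W.drop j).count v = 0 := List.count_eq_zero_of_not_mem fun hmem =>
    hWv (List.mem_of_mem_drop hmem)
  rw [h2, List.count_append, h3, List.count_cons_self, zero_add, ← add_assoc] at hk
  set x : ℕ := c v + w'.count v + 1 with hx
  have hx1 : 1 ≤ A * (x : ℝ) + 1 := by
    have : 0 ≤ A * (x : ℝ) := by positivity
    linarith
  have h4 : τ k (W.length + 1) ≤ th A x * τ k W.length := by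
    have h5 : τ k W.length ≤ τ k j := hτ k hj
    have h6 : τ k W.length < (A * (x : ℝ) + 1) * (τ k W.length - τ k (W.length + 1)) :=
      h5.trans_lt hk
    unfold th
    have h7 : τ k W.length / (A * (x : ℝ) + 1) < τ k W.length - τ k (W.length + 1) := by
      rw [div_lt_iff₀ (by linarith)]
      linarith
    have h8 : (1 - 1 / (A * (x : ℝ) + 1)) * τ k W.length =
        τ k W.length - τ k W.length / (A * (x : ℝ) + 1) := by ring
    rw [h8]
    linarith
  refine ⟨k, fun hk𝒦 => ?_, h4⟩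
  have h5 := hj𝒦 k hk𝒦
  have h6 : (A * (x : ℝ) + 1) * (τ k W.length - τ k (W.length + 1)) ≤ K' * τ k W.length := by
    refine (mul_le_mul_of_nonneg_left (sub_le_self _ (hτ0 k _)) (by linarith)).trans ?_
    exact mul_le_mul_of_nonneg_right hK' (hτ0 k _)
  linarith

/-- The inner induction. -/
theorem inner {m n : ℕ} {A : ℝ} (hA : 0 ≤ A) {u : ℕ} (hu : u < n) (hP : PP m n A u)
    (K : ℝ) (hK : 1 ≤ K) (c : Fin n → ℕ) (r : ℕ) :
    ∃ w : List (Fin n), (∀ v ∈ w, v.val < u + 1) ∧ w.count ⟨u, hu⟩ = r ∧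
      ∀ 𝒦 : Finset (Fin m), #𝒦 = u → ∀ τ : Fin m → ℕ → ℝ, (∀ k, Antitone (τ k)) →
        (∀ k i, 0 ≤ τ k i) → Hvy A w c τ → ∀ b : Fin m → ℝ, (∀ k, τ k 0 ≤ b k) →
        (∀ k ∉ 𝒦, b k < K * τ k w.length) →
        ∏ k ∈ 𝒦ᶜ, τ k w.length ≤
          (∏ l ∈ range r, th A (c ⟨u, hu⟩ + l + 1)) * ∏ k ∈ 𝒦ᶜ, τ k 0 := by
  classical
  set v : Fin n := ⟨u, hu⟩ with hv
  induction r with
  | zero =>
    refine ⟨[], by simp, rfl, fun 𝒦 _ τ _ _ _ b _ _ => ?_⟩
    simp
  | succ r ih =>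
    obtain ⟨w, hw1, hw2, hw3⟩ := ih
    set K' : ℝ := max K (A * ((c v + w.count v + 1 : ℕ) : ℝ) + 1) with hK'
    obtain ⟨W, hW1, hW2⟩ := hP K' (fun x => c x + (v :: w).count x) (hK.trans (le_max_left _ _))
    have hvW : v ∉ W := fun hmem => by
      have := hW1 v hmem
      simp only [hv] at this
      omega
    refine ⟨W ++ v :: w, ?_, ?_, ?_⟩
    · intro x hx
      rcases List.mem_append.mp hx with hx | hx
      · exact (hW1 x hx).trans (Nat.lt_succ_self u)
      · rcases List.mem_cons.mp hx with rfl | hx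
        · simp only [hv]
          omega
        · exact hw1 x hx
    · rw [List.count_append, List.count_cons_self, List.count_eq_zero_of_not_mem hvW, hw2]
      omega
    · intro 𝒦 h𝒦 τ hτ hτ0 hH b hb hbK
      obtain ⟨j, hj, 𝒦', h𝒦', hj𝒦', k, hk𝒦', hk⟩ := first_block hA hvW (le_max_right _ _) hW2 τ hτ
        hτ0 hH
      have hlen : W.length ≤ (W ++ v :: w).length := by simp
      have hsub : 𝒦' ⊆ 𝒦 := by
        intro k' hk'
        by_contra hk'n
        have h1 := hbK k' hk'n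
        have h2 := hj𝒦' k' hk'
        have h3 : K * τ k' (W ++ v :: w).length ≤ K' * τ k' W.length :=
          mul_le_mul (le_max_left _ _) (hτ k' hlen) (hτ0 _ _)
            (le_trans (by linarith) (le_max_left K _))
        have h4 : τ k' j ≤ b k' := (hτ k' (Nat.zero_le j)).trans (hb k')
        linarith
      have heq : 𝒦' = 𝒦 := eq_of_subset_of_card_le hsub (by rw [h𝒦, h𝒦'])
      subst heq
      have hH' : Hvy A w c (fun k i => τ k (W.length + 1 + i)) := by
        have h1 : W ++ v :: w = (W ++ [v]) ++ w := by simp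
        rw [h1] at hH
        have h2 := hH.right
        have h3 : (W ++ [v]).length = W.length + 1 := by simp
        rw [h3] at h2
        exact h2
      have h1 := hw3 𝒦' h𝒦 (fun k i => τ k (W.length + 1 + i))
        (fun k a a' haa => hτ k (by omega)) (fun k i => hτ0 _ _) hH' b
        (fun k => (hτ k (Nat.zero_le _)).trans (hb k)) (fun k hk => by
          have h2 := hbK k hk
          have h3 : W.length + 1 + w.length = (W ++ v :: w).length := by
            simp; omega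
          rw [h3]
          exact h2)
      have h3 : W.length + 1 + w.length = (W ++ v :: w).length := by
        simp; omega
      simp only [add_zero] at h1
      rw [h3] at h1
      have h4 : ∏ k ∈ 𝒦'ᶜ, τ k (W.length + 1) ≤
          th A (c v + r + 1) * ∏ k ∈ 𝒦'ᶜ, τ k 0 := by
        have hkc : k ∈ 𝒦'ᶜ := mem_compl.mpr hk𝒦'
        rw [← mul_prod_erase _ _ hkc, ← mul_prod_erase _ _ hkc, ← mul_assoc]
        refine mul_le_mul ?_ ?_ (prod_nonneg fun _ _ => hτ0 _ _)
          (mul_nonneg (th_nonneg hA _) (hτ0 _ _))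
        · rw [← hw2]
          exact hk.trans (mul_le_mul_of_nonneg_left (hτ k (Nat.zero_le _)) (th_nonneg hA _))
        · exact prod_le_prod (fun _ _ => hτ0 _ _) fun k' _ => hτ k' (Nat.zero_le _)
      refine h1.trans ?_
      rw [prod_range_succ, mul_assoc]
      exact mul_le_mul_of_nonneg_left h4 (prod_nonneg fun _ _ => th_nonneg hA _)

theorem PP_succ {m n : ℕ} {A : ℝ} (hA : 0 ≤ A) {u : ℕ} (hu : u < n) (hP : PP m n A u) :
    PP m n A (u + 1) := by
  classical
  intro K c hK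
  set v : Fin n := ⟨u, hu⟩ with hv
  obtain ⟨r, hr⟩ := exists_prod_small hA (c v) (K ^ m) (by positivity)
  obtain ⟨w, hw1, hw2, hw3⟩ := inner hA hu hP K hK c r
  set K' : ℝ := max K (A * ((c v + w.count v + 1 : ℕ) : ℝ) + 1) with hK'
  obtain ⟨W, hW1, hW2⟩ := hP K' (fun x => c x + (v :: w).count x) (hK.trans (le_max_left _ _))
  have hvW : v ∉ W := fun hmem => by
    have := hW1 v hmem
    simp only [hv] at this
    omega
  refine ⟨W ++ v :: w, ?_, ?_⟩
  · intro x hx
    rcases List.mem_append.mp hx with hx | hx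
    · exact (hW1 x hx).trans (Nat.lt_succ_self u)
    · rcases List.mem_cons.mp hx with rfl | hx
      · simp only [hv]
        omega
      · exact hw1 x hx
  · intro τ hτ hτ0 hH
    obtain ⟨j, hj, 𝒦, h𝒦, hj𝒦, k, hk𝒦, hk⟩ := first_block hA hvW (le_max_right _ _) hW2 τ hτ
      hτ0 hH
    have hlen : W.length ≤ (W ++ v :: w).length := by simp
    have h3 : W.length + 1 + w.length = (W ++ v :: w).length := by
      simp; omega
    let Ex : Finset (Fin m) := univ.filter fun k => K * τ k (W ++ v :: w).length ≤ τ k j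
    have hsub : 𝒦 ⊆ Ex := by
      intro k' hk'
      refine mem_filter.mpr ⟨mem_univ _, ?_⟩
      have h2 := hj𝒦 k' hk'
      have h3 : K * τ k' (W ++ v :: w).length ≤ K' * τ k' W.length :=
        mul_le_mul (le_max_left _ _) (hτ k' hlen) (hτ0 _ _)
          (le_trans (by linarith) (le_max_left K _))
      linarith
    by_cases hEx : u + 1 ≤ #Ex
    · obtain ⟨𝒦1, h1, h2⟩ := exists_subset_card_eq hEx
      refine ⟨j, hj.trans hlen, 𝒦1, h2, fun k hk => (mem_filter.mp (h1 hk)).2⟩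
    · exfalso
      have heq : 𝒦 = Ex := eq_of_subset_of_card_le hsub (by omega)
      have hnot : ∀ k ∉ 𝒦, τ k j < K * τ k (W ++ v :: w).length := by
        intro k' hk'
        rw [heq] at hk'
        by_contra hcon
        exact hk' (mem_filter.mpr ⟨mem_univ _, not_lt.mp hcon⟩)
      have hH' : Hvy A w c (fun k i => τ k (W.length + 1 + i)) := by
        have h1 : W ++ v :: w = (W ++ [v]) ++ w := by simp
        rw [h1] at hH
        have h2 := hH.right
        have h3 : (W ++ [v]).length = W.length + 1 := by simp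
        rw [h3] at h2
        exact h2
      have h1 := hw3 𝒦 h𝒦 (fun k i => τ k (W.length + 1 + i))
        (fun k a a' haa => hτ k (by omega)) (fun k i => hτ0 _ _) hH' (fun k => τ k j)
        (fun k => hτ k (by omega)) (fun k hk => by
          rw [h3]
          exact hnot k hk)
      simp only [add_zero] at h1
      rw [h3] at h1
      have h4 : ∏ k ∈ 𝒦ᶜ, τ k (W.length + 1) ≤
          th A (c v + r + 1) * ∏ k ∈ 𝒦ᶜ, τ k j := by
        have hkc : k ∈ 𝒦ᶜ := mem_compl.mpr hk𝒦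
        rw [← mul_prod_erase _ _ hkc, ← mul_prod_erase _ _ hkc, ← mul_assoc]
        refine mul_le_mul ?_ ?_ (prod_nonneg fun _ _ => hτ0 _ _)
          (mul_nonneg (th_nonneg hA _) (hτ0 _ _))
        · rw [← hw2]
          exact hk.trans (mul_le_mul_of_nonneg_left (hτ k hj) (th_nonneg hA _))
        · exact prod_le_prod (fun _ _ => hτ0 _ _) fun k' _ => hτ k' (by omega)
      have h5 : ∏ k ∈ 𝒦ᶜ, τ k (W ++ v :: w).length ≤
          (∏ l ∈ range (r + 1), th A (c v + l + 1)) * ∏ k ∈ 𝒦ᶜ, τ k j := by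
        refine h1.trans ?_
        rw [prod_range_succ, mul_assoc]
        exact mul_le_mul_of_nonneg_left h4 (prod_nonneg fun _ _ => th_nonneg hA _)
      have hpos : ∀ k ∈ 𝒦ᶜ, 0 < τ k (W ++ v :: w).length := by
        intro k' hk'
        have h6 := hnot k' (mem_compl.mp hk')
        have h7 := hτ0 k' j
        have h8 : 0 < K * τ k' (W ++ v :: w).length := lt_of_le_of_lt h7 h6
        refine (hτ0 k' _).lt_of_ne fun h0 => ?_
        rw [← h0, mul_zero] at h8
        exact lt_irrefl _ h8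
      have h6 : ∏ k ∈ 𝒦ᶜ, τ k j ≤ K ^ m * ∏ k ∈ 𝒦ᶜ, τ k (W ++ v :: w).length := by
        calc ∏ k ∈ 𝒦ᶜ, τ k j ≤ ∏ k ∈ 𝒦ᶜ, (K * τ k (W ++ v :: w).length) :=
              prod_le_prod (fun _ _ => hτ0 _ _) fun k hk => (hnot k (mem_compl.mp hk)).le
          _ = K ^ #𝒦ᶜ * ∏ k ∈ 𝒦ᶜ, τ k (W ++ v :: w).length := by
              rw [prod_mul_distrib, prod_const]
          _ ≤ K ^ m * ∏ k ∈ 𝒦ᶜ, τ k (W ++ v :: w).length := by
              refine mul_le_mul_of_nonneg_right ?_ (prod_nonneg fun _ _ => hτ0 _ _)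
              refine pow_le_pow_right₀ hK ?_
              have := card_le_univ 𝒦ᶜ
              simpa using this
      have h7 : 0 < ∏ k ∈ 𝒦ᶜ, τ k j := by
        refine prod_pos fun k hk => ?_
        exact (hpos k hk).trans_le (hτ k (by rw [← h3]; omega))
      have h8 : ∏ k ∈ 𝒦ᶜ, τ k j ≤
          (K ^ m * ∏ l ∈ range (r + 1), th A (c v + l + 1)) * ∏ k ∈ 𝒦ᶜ, τ k j := by
        refine h6.trans ?_
        rw [mul_assoc]
        exact mul_le_mul_of_nonneg_left h5 (by positivity)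
      nlinarith

theorem PP_all {m n : ℕ} {A : ℝ} (hA : 0 ≤ A) {u : ℕ} (hu : u ≤ n) : PP m n A u := by
  induction u with
  | zero => exact PP_zero m n A
  | succ u ih => exact PP_succ hA (by omega) (ih (by omega))

/-- The words: the condition cannot be satisfied. -/
theorem exists_word (m : ℕ) {A : ℝ} (hA : 0 ≤ A) (c : Fin (m + 1) → ℕ) :
    ∃ w : List (Fin (m + 1)), ∀ τ : Fin m → ℕ → ℝ, (∀ k, Antitone (τ k)) →
      (∀ k i, 0 ≤ τ k i) → ¬ Hvy A w c τ := by
  obtain ⟨w, -, hw⟩ := PP_all (m := m) hA (le_refl (m + 1)) 1 c le_rfl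
  refine ⟨w, fun τ hτ hτ0 hH => ?_⟩
  obtain ⟨j, -, 𝒦, h𝒦, -⟩ := hw τ hτ hτ0 hH
  have := card_le_univ 𝒦
  rw [h𝒦, Fintype.card_fin] at this
  omega

end Pool.Agent.J4.H69.BK
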