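import Pool.Agent.J4.H69.BK.Real
import Pool.Agent.J4.H69.BK.Words

/-!
`C(B(κ)^(m+1))` does not embed into `C(B(κ)^m)` for uncountable `κ`.
-/

set_option autoImplicit false

namespace Pool.Agent.J4.H69.BK

open Pool.Agent.Helper358.LOne Pool.Agent.TH50.BK Finset

universe u

/-- the list as a sequence -/
def seq {m : ℕ} (D : List (Fin (m + 1))) (i : ℕ) : Fin (m + 1) := D.getD i 0

theorem count_take {m : ℕ} (D : List (Fin (m + 1))) (v : Fin (m + 1)) (j : ℕ) (hj : j ≤ D.length) :
    #{i ∈ range j | seq D i = v} = (D.take j).count v := by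
  classical
  induction j with
  | zero => simp
  | succ j ih =>
    have hj' : j < D.length := hj
    rw [range_add_one, filter_insert, List.take_succ_eq_append_getElem hj', List.count_append,
      ← ih hj'.le]
    have h1 : seq D j = D[j] := by
      unfold seq
      rw [List.getD_eq_getElem]
    rw [h1]
    by_cases h : D[j] = v
    · rw [if_pos h, card_insert_of_notMem (by simp), h]
      simp
    · rw [if_neg h]
      simp [h]

theorem count_sub {m : ℕ} (D : List (Fin (m + 1))) (v : Fin (m + 1)) (j : ℕ) (hj : j ≤ D.length) :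
    D.count v - #{i ∈ range j | seq D i = v} = (D.drop j).count v := by
  rw [count_take D v j hj]
  have h1 : D.count v = (D.take j).count v + (D.drop j).count v := by
    conv_lhs => rw [← List.take_append_drop j D]
    rw [List.count_append]
  omega

/-- a point where all the test functions are one -/
theorem exists_point {κ : Type u} {m : ℕ} (D : List (Fin (m + 1))) (a : ℕ → κ)
    (ha : ∀ i < D.length, ∀ i' < D.length, a i = a i' → i = i') :
    ∃ y : Fin (m + 1) → Ball κ, ∀ j ≤ D.length, G (fun v => D.count v) (seq D) a j y = 1 := by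
  classical
  let P : Fin (m + 1) → Finset κ := fun v => {i ∈ range D.length | seq D i = v}.image a
  have hPc : ∀ v, #(P v) = D.count v := by
    intro v
    simp only [P]
    rw [card_image_of_injOn, count_take D v _ le_rfl, List.take_length]
    intro i hi i' hi' h
    have h1 := mem_filter.mp (mem_coe.mp hi)
    have h2 := mem_filter.mp (mem_coe.mp hi')
    exact ha i (mem_range.mp h1.1) i' (mem_range.mp h2.1) h
  have hb : ∀ v, (fun b : κ => if b ∈ P v then (1 : ℝ) / (D.count v : ℝ) else 0) ∈ Ball κ := by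
    intro v F
    calc ∑ b ∈ F, |if b ∈ P v then (1 : ℝ) / (D.count v : ℝ) else 0|
        = ∑ b ∈ F with b ∈ P v, (1 : ℝ) / (D.count v : ℝ) := by
          rw [sum_filter]
          refine sum_congr rfl fun b _ => ?_
          split_ifs
          · rw [abs_of_nonneg (by positivity)]
          · simp
      _ = (#{b ∈ F | b ∈ P v} : ℝ) * (1 / (D.count v : ℝ)) := by
          rw [sum_const, nsmul_eq_mul]
      _ ≤ (D.count v : ℝ) * (1 / (D.count v : ℝ)) := by
          refine mul_le_mul_of_nonneg_right ?_ (by positivity)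
          rw [← hPc v]
          have : {b ∈ F | b ∈ P v} ⊆ P v := fun b hb => (mem_filter.mp hb).2
          exact_mod_cast card_le_card this
      _ ≤ 1 := by
          rw [mul_one_div]
          exact div_self_le_one _
  refine ⟨fun v => ⟨_, hb v⟩, fun j hj => ?_⟩
  rw [G_apply]
  refine prod_eq_one fun i hi => ?_
  have hi' : i < D.length := lt_of_lt_of_le (mem_range.mp hi) hj
  change cut (D.count (seq D i)) (if a i ∈ P (seq D i) then (1 : ℝ) / (D.count (seq D i) : ℝ)
    else 0) = 1
  have hmem : a i ∈ P (seq D i) := mem_image_of_mem _ (mem_filter.mpr ⟨mem_range.mpr hi', rfl⟩)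
  rw [if_pos hmem]
  refine cut_inv ?_
  rw [← hPc]
  exact card_pos.mpr ⟨_, hmem⟩

/-- The total word. -/
theorem exists_words (m : ℕ) {A : ℝ} (hA : 0 ≤ A) :
    ∃ D : ℕ → List (Fin (m + 1)), D 0 = [] ∧ ∀ r, ∃ w, D (r + 1) = w ++ D r ∧
      ∀ τ : Fin m → ℕ → ℝ, (∀ k, Antitone (τ k)) → (∀ k i, 0 ≤ τ k i) →
        ¬ Hvy A w (fun v => (D r).count v) τ := by
  choose W hW using fun c : Fin (m + 1) → ℕ => exists_word m hA c
  let D : ℕ → List (Fin (m + 1)) := fun r =>
    Nat.rec [] (fun _ l => W (fun v => l.count v) ++ l) r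
  exact ⟨D, rfl, fun r => ⟨W (fun v => (D r).count v), rfl, hW _⟩⟩

theorem drop_words {α : Type} (D : ℕ → List α) (w : ℕ → List α)
    (hw : ∀ r, D (r + 1) = w r ++ D r) {r M : ℕ} (hr : r ≤ M) :
    (D r).length ≤ (D M).length ∧ (D M).drop ((D M).length - (D r).length) = D r := by
  induction M, hr using Nat.le_induction with
  | base => simp
  | succ M hM' ih =>
    obtain ⟨ih1, ih2⟩ := ih
    rw [hw M, List.length_append]
    refine ⟨by omega, ?_⟩
    have h1 : (w M).length + (D M).length - (D r).length =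
        (w M).length + ((D M).length - (D r).length) := by omega
    rw [h1, ← List.drop_drop, List.drop_left, ih2]

/-- `C(B(κ)^(m+1))` does not embed into `C(B(κ)^m)` for uncountable `κ`. -/
theorem no_embedding {κ : Type u} [Uncountable κ] (m : ℕ)
    (T : C(Fin (m + 1) → Ball κ, ℝ) →L[ℝ] C(Fin m → Ball κ, ℝ)) {c : ℝ} (hc : 0 < c)
    (hT : ∀ f, c * ‖f‖ ≤ ‖T f‖) : False := by
  classical
  obtain ⟨A, hA⟩ := exists_nat_ge (4 * ‖T‖ / c)
  obtain ⟨M, hM⟩ := exists_nat_gt (2 * ‖T‖ / c)
  rw [div_le_iff₀ hc] at hA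
  rw [div_lt_iff₀ hc] at hM
  set δ : ℝ := c / 2 with hδ
  set ε : ℝ := c / 24 with hε
  have hε0 : 0 < ε := by positivity
  have hA' : ∀ x : ℕ, ‖T‖ * x / ((A * x + 1 : ℕ) : ℝ) + 3 * ε < δ := by
    intro x
    have h1 : ‖T‖ * x / ((A * x + 1 : ℕ) : ℝ) ≤ c / 4 := by
      rw [div_le_iff₀ (by positivity)]
      push_cast
      have h2 : 4 * ‖T‖ * x ≤ A * c * x := mul_le_mul_of_nonneg_right hA (Nat.cast_nonneg x)
      nlinarith
    rw [hδ, hε]
    linarith
  obtain ⟨D, hD0, hD⟩ := exists_words m (A := A) (Nat.cast_nonneg A)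
  choose w hw1 hw2 using hD
  have hlen : ∀ r, (D (r + 1)).length = (w r).length + (D r).length := by
    intro r
    rw [hw1, List.length_append]
  have hmono : Monotone fun r => (D r).length :=
    monotone_nat_of_le_succ fun r => by rw [hlen]; omega
  set L : ℕ := (D M).length with hL
  have hdrop : ∀ r ≤ M, (D M).drop (L - (D r).length) = D r := fun r hr =>
    (drop_words D w hw1 hr).2
  obtain ⟨a, Q, ha, hQ, hH⟩ := realize T (fun v => (D M).count v) (seq (D M)) A hε0 hA' L
  set Gj : ℕ → C(Fin (m + 1) → Ball κ, ℝ) := G (fun v => (D M).count v) (seq (D M)) a with hGj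
  set P : ℕ → C(Fin (m + 1) → Ball κ, ℝ) := fun l => phi (fun v => (D M).count v) (seq (D M) l) (a l)
    with hP
  let e : ℕ → ℕ := fun r => L - (D r).length
  have he : ∀ r < M, e (r + 1) + (w r).length = e r := by
    intro r hr
    have h1 := hlen r
    have h2 : (D (r + 1)).length ≤ L := hmono hr
    simp only [e]
    omega
  -- in every stage there is a bad pair
  have hbad : ∀ z : Fin m → Ball κ, ∀ r < M, ∃ j l, e (r + 1) ≤ j ∧ j ≤ l ∧ l < e r ∧
      |T (Gj j * P l) z| < δ := by
    intro z r hr
    by_contra hcon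
    push Not at hcon
    have her := he r hr
    have heL : e r ≤ L := Nat.sub_le _ _
    let τ : Fin m → ℕ → ℝ := fun k i => 1 - ∑ γ ∈ Q (min (e (r + 1) + i) L), |(z k).1 γ|
    refine hw2 r τ ?_ ?_ ?_
    · intro k i i' hii'
      have h1 : Q (min (e (r + 1) + i) L) ⊆ Q (min (e (r + 1) + i') L) :=
        hQ _ _ (min_le_min_right _ (by omega)) (min_le_right _ _)
      have h2 := sum_le_sum_of_subset_of_nonneg h1 (f := fun γ => |(z k).1 γ|)
        fun _ _ _ => abs_nonneg _
      simp only [τ]
      linarith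
    · intro k i
      have h1 := (z k).2 (Q (min (e (r + 1) + i) L))
      simp only [τ]
      linarith
    · intro j l hl hjl
      obtain ⟨k, hk⟩ := hH (e (r + 1) + l) (by omega) (e (r + 1) + j) (by omega) z
        (hcon (e (r + 1) + j) (e (r + 1) + l) (by omega) (by omega) (by omega))
      refine ⟨k, ?_⟩
      have h1 : (D M).drop (e (r + 1)) = w r ++ D r := by
        rw [← hw1]
        exact hdrop (r + 1) hr
      have h2 : seq (D M) (e (r + 1) + l) = (w r)[l] := by
        unfold seq
        rw [List.getD_eq_getElem (hn := by omega)]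
        have h3 : (D M)[e (r + 1) + l]'(by omega) = ((D M).drop (e (r + 1)))[l]'(by
            rw [List.length_drop]; omega) := by
          rw [List.getElem_drop]
        rw [h3]
        simp only [h1]
        exact List.getElem_append_left hl
      rw [h2, count_sub (D M) _ _ (by omega)] at hk
      have h3 : (D M).drop (e (r + 1) + j) = (w r).drop j ++ D r := by
        rw [← List.drop_drop, h1]
        exact List.drop_append_of_le_length (by omega)
      rw [h3, List.count_append] at hk
      have h4 : min (e (r + 1) + j) L = e (r + 1) + j := min_eq_left (by omega)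
      have h5 : min (e (r + 1) + l) L = e (r + 1) + l := min_eq_left (by omega)
      have h6 : min (e (r + 1) + (l + 1)) L = e (r + 1) + l + 1 := by
        rw [min_eq_left (by omega)]
        ring
      simp only [τ]
      rw [h4, h5, h6, add_comm ((D r).count (w r)[l])]
      have h7 : (1 - ∑ γ ∈ Q (e (r + 1) + l), |(z k).1 γ|) -
          (1 - ∑ γ ∈ Q (e (r + 1) + l + 1), |(z k).1 γ|) =
          ∑ γ ∈ Q (e (r + 1) + l + 1), |(z k).1 γ| - ∑ γ ∈ Q (e (r + 1) + l), |(z k).1 γ| := by
        ring
      rw [h7]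
      exact hk
  -- the sum of the test functions
  set F : C(Fin (m + 1) → Ball κ, ℝ) := ∑ r ∈ range M, Gj (e (r + 1)) with hF
  have hF1 : (M : ℝ) ≤ ‖F‖ := by
    obtain ⟨y, hy⟩ := exists_point (D M) a ha
    have h1 := ContinuousMap.norm_coe_le_norm F y
    have h2 : F y = M := by
      rw [hF, ContinuousMap.sum_apply]
      calc ∑ r ∈ range M, Gj (e (r + 1)) y = ∑ _r ∈ range M, (1 : ℝ) :=
            sum_congr rfl fun r _ => hy _ (Nat.sub_le _ _)
        _ = M := by simp
    rw [h2, Real.norm_eq_abs, abs_of_nonneg (Nat.cast_nonneg M)] at h1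
    exact h1
  have hF2 : ‖T F‖ ≤ ‖T‖ + M * δ := by
    refine (ContinuousMap.norm_le _ (by positivity)).mpr fun z => ?_
    have hb' : ∀ r : ℕ, ∃ p : ℕ × ℕ, r < M → (e (r + 1) ≤ p.1 ∧ p.1 ≤ p.2 ∧ p.2 < e r ∧
        |T (Gj p.1 * P p.2) z| < δ) := by
      intro r
      by_cases hr : r < M
      · obtain ⟨j, l, h⟩ := hbad z r hr
        exact ⟨(j, l), fun _ => h⟩
      · exact ⟨(0, 0), fun h => absurd h hr⟩
    choose p hp using hb'
    let dv : ℕ → C(Fin (m + 1) → Ball κ, ℝ) := fun r => Gj (e (r + 1)) - Gj (p r).1 * P (p r).2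
    let σ : ℕ → ℝ := fun r => if 0 ≤ T (dv r) z then 1 else -1
    have hσ : ∀ r, |σ r| ≤ 1 := by
      intro r
      simp only [σ]
      split_ifs <;> simp
    have h1 : ∑ r ∈ range M, |T (dv r) z| ≤ ‖T‖ := by
      have h2 : ∑ r ∈ range M, |T (dv r) z| = T (∑ r ∈ range M, σ r • dv r) z := by
        rw [map_sum, ContinuousMap.sum_apply]
        refine sum_congr rfl fun r _ => ?_
        rw [map_smul, ContinuousMap.smul_apply, smul_eq_mul]
        simp only [σ]
        split_ifs with h
        · rw [one_mul, abs_of_nonneg h]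
        · rw [neg_one_mul, abs_of_neg (lt_of_not_ge h)]
      rw [h2]
      calc T (∑ r ∈ range M, σ r • dv r) z ≤ ‖T (∑ r ∈ range M, σ r • dv r) z‖ := le_abs_self _
        _ ≤ ‖T (∑ r ∈ range M, σ r • dv r)‖ := ContinuousMap.norm_coe_le_norm _ z
        _ ≤ ‖T‖ * ‖∑ r ∈ range M, σ r • dv r‖ := T.le_opNorm _
        _ ≤ ‖T‖ * 1 := by
            refine mul_le_mul_of_nonneg_left ?_ (norm_nonneg T)
            refine (ContinuousMap.norm_le _ zero_le_one).mpr fun y => ?_
            rw [ContinuousMap.sum_apply, Real.norm_eq_abs]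
            refine (abs_sum_le_sum_abs _ _).trans ?_
            have h3 : ∀ r ∈ range M, |(σ r • dv r) y| ≤ Gj (e (r + 1)) y - Gj (e r) y := by
              intro r hr
              obtain ⟨h4, h5, h6, -⟩ := hp r (mem_range.mp hr)
              have h7 : dv r y = Gj (e (r + 1)) y - Gj (p r).1 y * P (p r).2 y := rfl
              have h8 : Gj (p r).1 y * P (p r).2 y ≤ Gj (e (r + 1)) y :=
                (mul_le_of_le_one_right (G_nonneg _ _ _ _ _) (phi_le_one _ _ _ _)).trans
                  (G_anti _ _ _ h4 y)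
              have h9 : Gj (e r) y ≤ Gj (p r).1 y * P (p r).2 y := by
                calc Gj (e r) y ≤ Gj ((p r).2 + 1) y := G_anti _ _ _ (by omega) y
                  _ = Gj (p r).2 y * P (p r).2 y := by
                      rw [hGj, G_apply, G_apply, prod_range_succ]
                  _ ≤ Gj (p r).1 y * P (p r).2 y :=
                      mul_le_mul_of_nonneg_right (G_anti _ _ _ h5 y) (phi_nonneg _ _ _ _)
              rw [ContinuousMap.smul_apply, smul_eq_mul, abs_mul, h7,
                abs_of_nonneg (sub_nonneg.mpr h8)]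
              calc |σ r| * (Gj (e (r + 1)) y - Gj (p r).1 y * P (p r).2 y)
                  ≤ Gj (e (r + 1)) y - Gj (p r).1 y * P (p r).2 y :=
                    mul_le_of_le_one_left (sub_nonneg.mpr h8) (hσ r)
                _ ≤ _ := by linarith
            refine (sum_le_sum h3).trans ?_
            rw [sum_range_sub (fun r => Gj (e r) y)]
            have h10 := G_nonneg (fun v => (D M).count v) (seq (D M)) a (e 0) y
            have h11 := G_le_one (fun v => (D M).count v) (seq (D M)) a (e M) y
            linarith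
        _ = ‖T‖ := mul_one _
    rw [hF, map_sum, ContinuousMap.sum_apply, Real.norm_eq_abs]
    refine (abs_sum_le_sum_abs _ _).trans ?_
    have h2 : ∀ r ∈ range M, |T (Gj (e (r + 1))) z| ≤ |T (dv r) z| + δ := by
      intro r hr
      obtain ⟨-, -, -, h3⟩ := hp r (mem_range.mp hr)
      have h4 : T (Gj (e (r + 1))) z = T (dv r) z + T (Gj (p r).1 * P (p r).2) z := by
        simp only [dv]
        rw [map_sub, ContinuousMap.sub_apply]
        ring
      rw [h4]
      exact (abs_add_le _ _).trans (by linarith)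
    refine (sum_le_sum h2).trans ?_
    rw [sum_add_distrib, sum_const, card_range, nsmul_eq_mul]
    linarith
  have h1 := hT F
  have h2 : c * M ≤ c * ‖F‖ := mul_le_mul_of_nonneg_left hF1 hc.le
  rw [hδ] at hF2
  nlinarith

end Pool.Agent.J4.H69.BK
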