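import Pool.Agent.Helper358.LOne

/-!
Normal forms of uncountable families of functions on `B(Γ)^m`, on uncountable index sets.
-/

set_option autoImplicit false

namespace Pool.Agent.J4.H69.BK

open Pool.Agent.Helper358.LOne

universe u

/-- The normal form of a family of functions on the index set `I`. -/
structure NFU {Γ : Type u} {m : ℕ} (f : Γ → C(Fin m → Ball Γ, ℝ)) (ε : ℝ) (I : Set Γ) where
  /-- size -/
  p : ℕ
  /-- support -/
  e : Γ → Fin p → Γ
  /-- the root -/
  J : Finset (Fin p)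
  /-- values on the root -/
  g : Fin p → Γ
  inj : ∀ i ∈ I, Function.Injective (e i)
  supp : ∀ i ∈ I, ∀ z z' : Fin m → Ball Γ, (∀ k a, (z k).1 (e i a) = (z' k).1 (e i a)) →
    |f i z - f i z'| ≤ ε
  same : ∀ i ∈ I, ∀ j ∈ I, ∀ w : Fin m → Ball (Fin p),
    |f i (fun k => ext (e i) (w k)) - f j (fun k => ext (e j) (w k))| ≤ ε
  root : ∀ i ∈ I, ∀ a ∈ J, e i a = g a
  cnt : ∀ Q : Finset Γ, {i ∈ I | ∃ a ∉ J, e i a ∈ Q}.Countable

variable {Γ : Type u} {m : ℕ} {f : Γ → C(Fin m → Ball Γ, ℝ)} {ε : ℝ}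

/-- restriction to a smaller index set -/
def NFU.restrict {I I' : Set Γ} (d : NFU f ε I) (h : I' ⊆ I) : NFU f ε I' where
  p := d.p
  e := d.e
  J := d.J
  g := d.g
  inj := fun i hi => d.inj i (h hi)
  supp := fun i hi => d.supp i (h hi)
  same := fun i hi j hj => d.same i (h hi) j (h hj)
  root := fun i hi => d.root i (h hi)
  cnt := fun Q => by
    refine Set.Countable.mono ?_ (d.cnt Q)
    intro i hi
    exact ⟨h hi.1, hi.2⟩

open Classical in
/-- the root as a set -/
noncomputable def NFU.rt {I : Set Γ} (d : NFU f ε I) : Finset Γ := d.J.image d.g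

open Classical in
/-- the new part of the support -/
noncomputable def NFU.nw {I : Set Γ} (d : NFU f ε I) (i : Γ) : Finset Γ := d.Jᶜ.image (d.e i)

lemma exists_NFU (f : Γ → C(Fin m → Ball Γ, ℝ)) {ε : ℝ}
    (hε : 0 < ε) {I0 : Set Γ} (hI0 : ¬ I0.Countable) :
    ∃ I ⊆ I0, ¬ I.Countable ∧ Nonempty (NFU f ε I) := by
  classical
  choose P hP using fun i => exists_support (f i) hε
  -- same size
  obtain ⟨I1, hI10, hI1c, hI1⟩ := pigeon hI0 (fun i => (P i).card) (ε := 1 / 2) (by norm_num)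
  have hI1ne : I1.Nonempty := by
    by_contra h
    rw [Set.not_nonempty_iff_eq_empty] at h
    exact hI1c (h ▸ Set.countable_empty)
  obtain ⟨i0, hi0⟩ := hI1ne
  have hcard : ∀ i ∈ I1, (P i).card = (P i0).card := by
    intro i hi
    have := hI1 i hi i0 hi0
    rw [Nat.dist_eq, ← Nat.cast_inj (R := ℝ)] at *
    by_contra hne
    have h1 : (1 : ℝ) ≤ |((P i).card : ℝ) - (P i0).card| := by
      have h2 : ((P i).card : ℤ) - (P i0).card ≠ 0 := by
        intro h
        apply hne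
        have : ((P i).card : ℤ) = (P i0).card := by linarith
        exact_mod_cast this
      have h3 := Int.one_le_abs h2
      exact_mod_cast h3
    linarith
  set p := (P i0).card with hp
  have hex : ∀ i, ∃ e : Fin p → Γ, i ∈ I1 → (Function.Injective e ∧ ∀ γ ∈ P i, ∃ a, e a = γ) := by
    intro i
    by_cases hi : i ∈ I1
    · let E := (P i).equivFinOfCardEq (hcard i hi)
      refine ⟨fun a => (E.symm a).1, fun _ => ⟨?_, ?_⟩⟩
      · intro a b hab
        exact E.symm.injective (Subtype.ext hab)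
      · intro γ hγ
        exact ⟨E ⟨γ, hγ⟩, by simp⟩
    · exact ⟨fun _ => i, fun h => absurd h hi⟩
  choose e he using hex
  -- the same function up to ε
  let φ : Γ → C(Fin m → Ball (Fin p), ℝ) := fun i =>
    ⟨fun w => f i (fun k => ext (e i) (w k)), (f i).continuous.comp
      (continuous_pi fun k => (continuous_ext (e i)).comp (continuous_apply k))⟩
  obtain ⟨I2, hI21, hI2c, hI2⟩ := pigeon hI1c φ hε
  obtain ⟨J, g, hJ1, hJ2⟩ := exists_root e hI2c
  refine ⟨{i ∈ I2 | ∀ a ∈ J, e i a = g a}, fun i hi => hI10 (hI21 hi.1), hJ1,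
    ⟨{ p := p
       e := e
       J := J
       g := g
       inj := fun i hi => (he i (hI21 hi.1)).1
       supp := fun i hi z z' hzz => ?_
       same := fun i hi j hj w => ?_
       root := fun i hi => hi.2
       cnt := fun Q => ?_ }⟩⟩
  · refine hP i z z' fun k γ hγ => ?_
    obtain ⟨a, rfl⟩ := (he i (hI21 hi.1)).2 γ hγ
    exact hzz k a
  · have h1 := hI2 i hi.1 j hj.1
    have h3 := (ContinuousMap.dist_le hε.le).mp h1 w
    rw [Real.dist_eq] at h3
    exact h3
  · have hsub : {i ∈ {i ∈ I2 | ∀ a ∈ J, e i a = g a} | ∃ a ∉ J, e i a ∈ Q} ⊆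
        ⋃ a ∈ {a | a ∉ J}, ⋃ γ ∈ (Q : Set Γ),
          {i ∈ I2 | (∀ b ∈ J, e i b = g b) ∧ e i a = γ} := by
      rintro i ⟨⟨hi1, hi2⟩, a, ha, haQ⟩
      exact Set.mem_iUnion₂.mpr ⟨a, ha, Set.mem_iUnion₂.mpr ⟨e i a, haQ, hi1, hi2, rfl⟩⟩
    refine Set.Countable.mono hsub ?_
    refine (Set.to_countable _).biUnion fun a ha => ?_
    exact Q.countable_toSet.biUnion fun γ _ => hJ2 a ha γ

/-- normal forms for finitely many families with a common index set -/
lemma exists_NFU_many {ι : Type} (s : Finset ι) (f : ι → Γ → C(Fin m → Ball Γ, ℝ)) {ε : ℝ}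
    (hε : 0 < ε) {I0 : Set Γ} (hI0 : ¬ I0.Countable) :
    ∃ I ⊆ I0, ¬ I.Countable ∧ ∀ l ∈ s, Nonempty (NFU (f l) ε I) := by
  classical
  induction s using Finset.induction_on with
  | empty => exact ⟨I0, subset_rfl, hI0, by simp⟩
  | insert l s hl ih =>
    obtain ⟨I, hI, hIc, h⟩ := ih
    obtain ⟨I', hI', hI'c, ⟨d⟩⟩ := exists_NFU (f l) hε hIc
    refine ⟨I', hI'.trans hI, hI'c, fun l' hl' => ?_⟩
    rcases Finset.mem_insert.mp hl' with rfl | hl'
    · exact ⟨d⟩
    · obtain ⟨d'⟩ := h l' hl'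
      exact ⟨d'.restrict hI'⟩

/-- conversion to the normal form of the library -/
noncomputable def NFU.toNF {I : Set Γ} (d : NFU f ε I) (hI : ¬ I.Countable) : NF f ε where
  p := d.p
  e := d.e
  I := I
  J := d.J
  g := d.g
  inj := d.inj
  supp := d.supp
  same := d.same
  root := d.root
  free := fun Q => by
    by_contra hcon
    push Not at hcon
    apply hI
    refine ((d.cnt Q).union Q.countable_toSet).mono fun i hi => ?_
    by_cases hQ : i ∈ Q
    · exact Or.inr hQ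
    · obtain ⟨a, ha, haQ⟩ := hcon i hi hQ
      exact Or.inl ⟨hi, a, ha, haQ⟩

/-- If the value is large, some component has a large weight on the new part. -/
lemma NFU.heavy {I : Set Γ} (d : NFU f ε I) (hI : ¬ I.Countable) {C : ℝ}
    (hC : ∀ (F : Finset Γ) z, ∑ i ∈ F, |f i z| ≤ C) {i : Γ} (hi : i ∈ I) (z : Fin m → Ball Γ)
    {q : ℕ} (hq : 0 < q) (h : C / q + 3 * ε < |f i z|) :
    ∃ k, 1 - ∑ γ ∈ d.rt, |(z k).1 γ| < q * ∑ γ ∈ d.nw i, |(z k).1 γ| := by
  classical
  by_contra hcon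
  push Not at hcon
  have h1 := (d.toNF hI).dup hC hi z hq (fun k => by
    have h2 := hcon k
    have h3 : ∑ a ∈ d.J, |(z k).1 (d.g a)| = ∑ γ ∈ d.rt, |(z k).1 γ| := by
      unfold NFU.rt
      rw [Finset.sum_image]
      intro a ha b hb hab
      rw [← d.root _ hi a ha, ← d.root _ hi b hb] at hab
      exact d.inj _ hi hab
    have h4 : ∑ a ∈ d.Jᶜ, |(z k).1 (d.e i a)| = ∑ γ ∈ d.nw i, |(z k).1 γ| := by
      unfold NFU.nw
      rw [Finset.sum_image]
      intro a _ b _ hab
      exact d.inj _ hi hab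
    change ∑ a ∈ d.J, |(z k).1 (d.g a)| + q * ∑ a ∈ d.Jᶜ, |(z k).1 (d.e i a)| ≤ 1
    rw [h3, h4]
    linarith)
  linarith

end Pool.Agent.J4.H69.BK
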