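import Pool.Agent.J4.H69.BK.NFU
import Pool.Agent.TH50.BK.Test

/-!
Realisation of words by test functions on the powers of the ball.
-/

set_option autoImplicit false

namespace Pool.Agent.J4.H69.BK

open Pool.Agent.Helper358.LOne Pool.Agent.TH50.BK Finset

universe u

variable {κ : Type u} {n m : ℕ}

/-- coordinate test function -/
noncomputable def phi (N : Fin n → ℕ) (v : Fin n) (a : κ) : C(Fin n → Ball κ, ℝ) :=
  ⟨fun y => cut (N v) ((y v).1 a), (continuous_cut _).comp
    ((continuous_apply a).comp (continuous_subtype_val.comp (continuous_apply v)))⟩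

theorem phi_nonneg (N : Fin n → ℕ) (v : Fin n) (a : κ) (y : Fin n → Ball κ) :
    0 ≤ phi N v a y := cut_nonneg _ _

theorem phi_le_one (N : Fin n → ℕ) (v : Fin n) (a : κ) (y : Fin n → Ball κ) :
    phi N v a y ≤ 1 := cut_le_one _ _

/-- products of test functions -/
noncomputable def G (N : Fin n → ℕ) (s : ℕ → Fin n) (a : ℕ → κ) (j : ℕ) :
    C(Fin n → Ball κ, ℝ) := ∏ i ∈ range j, phi N (s i) (a i)

theorem G_apply (N : Fin n → ℕ) (s : ℕ → Fin n) (a : ℕ → κ) (j : ℕ) (y : Fin n → Ball κ) :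
    G N s a j y = ∏ i ∈ range j, phi N (s i) (a i) y := by
  unfold G
  rw [ContinuousMap.prod_apply]

theorem G_nonneg (N : Fin n → ℕ) (s : ℕ → Fin n) (a : ℕ → κ) (j : ℕ) (y : Fin n → Ball κ) :
    0 ≤ G N s a j y := by
  rw [G_apply]
  exact prod_nonneg fun _ _ => phi_nonneg _ _ _ _

theorem G_le_one (N : Fin n → ℕ) (s : ℕ → Fin n) (a : ℕ → κ) (j : ℕ) (y : Fin n → Ball κ) :
    G N s a j y ≤ 1 := by
  rw [G_apply]
  exact prod_le_one (fun _ _ => phi_nonneg _ _ _ _) fun _ _ => phi_le_one _ _ _ _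

theorem G_anti (N : Fin n → ℕ) (s : ℕ → Fin n) (a : ℕ → κ) {j l : ℕ} (h : j ≤ l)
    (y : Fin n → Ball κ) : G N s a l y ≤ G N s a j y := by
  induction l, h using Nat.le_induction with
  | base => exact le_rfl
  | succ l h ih =>
    refine le_trans ?_ ih
    rw [G_apply, G_apply, prod_range_succ]
    exact mul_le_of_le_one_right (prod_nonneg fun _ _ => phi_nonneg _ _ _ _) (phi_le_one _ _ _ _)

theorem G_congr (N : Fin n → ℕ) (s : ℕ → Fin n) (a a' : ℕ → κ) (j : ℕ)
    (h : ∀ i < j, a i = a' i) : G N s a j = G N s a' j := by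
  unfold G
  refine prod_congr rfl fun i hi => ?_
  rw [h i (mem_range.mp hi)]

/-- the number of test functions that are not zero -/
theorem card_bound {N : Fin n → ℕ} {s : ℕ → Fin n} {a : ℕ → κ} {j : ℕ}
    (hinj : ∀ i < j, ∀ i' < j, a i = a i' → i = i') (v : Fin n) (F : Finset κ)
    (hF : ∀ b ∈ F, ∀ i < j, a i ≠ b) (y : Fin n → Ball κ) :
    G N s a j y * ∑ b ∈ F, phi N v b y ≤ ((N v - #{i ∈ range j | s i = v} : ℕ) : ℝ) := by
  classical
  by_cases h0 : G N s a j y = 0
  · rw [h0, zero_mul]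
    exact Nat.cast_nonneg _
  rw [G_apply, ← ne_eq, prod_ne_zero_iff] at h0
  set P : Finset κ := {i ∈ range j | s i = v}.image a with hP
  set B : Finset κ := {b ∈ F | phi N v b y ≠ 0} with hB
  have hPc : #P = #{i ∈ range j | s i = v} := by
    rw [hP, card_image_of_injOn]
    intro i hi i' hi' h
    have h1 := mem_filter.mp (mem_coe.mp hi)
    have h2 := mem_filter.mp (mem_coe.mp hi')
    exact hinj i (mem_range.mp h1.1) i' (mem_range.mp h2.1) h
  have hdisj : Disjoint P B := by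
    rw [disjoint_left]
    intro b hbP hbB
    obtain ⟨i, hi, rfl⟩ := mem_image.mp hbP
    exact hF (a i) (mem_filter.mp hbB).1 i (mem_range.mp (mem_filter.mp hi).1) rfl
  have hlt : ∀ b ∈ P ∪ B, 1 / ((N v : ℝ) + 1) < |(y v).1 b| := by
    intro b hb
    refine lt_of_lt_of_le ?_ (le_abs_self _)
    rcases mem_union.mp hb with hb | hb
    · obtain ⟨i, hi, rfl⟩ := mem_image.mp hb
      have h1 := mem_filter.mp hi
      have h2 := h0 i h1.1
      rw [h1.2] at h2
      exact lt_of_cut_ne h2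
    · exact lt_of_cut_ne (mem_filter.mp hb).2
  have hcard : #(P ∪ B) < N v + 1 := by
    rcases (P ∪ B).eq_empty_or_nonempty with hE | hne
    · rw [hE]; simp
    · have h1 : ∑ _b ∈ P ∪ B, 1 / ((N v : ℝ) + 1) < ∑ b ∈ P ∪ B, |(y v).1 b| :=
        sum_lt_sum_of_nonempty hne hlt
      have h2 := (y v).2 (P ∪ B)
      rw [sum_const, nsmul_eq_mul] at h1
      have h3 : (#(P ∪ B) : ℝ) * (1 / ((N v : ℝ) + 1)) < 1 := h1.trans_le h2
      rw [mul_one_div, div_lt_one (by positivity)] at h3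
      exact_mod_cast h3
  rw [card_union_of_disjoint hdisj, hPc] at hcard
  have hBc : #B ≤ N v - #{i ∈ range j | s i = v} := by omega
  have h1 : ∑ b ∈ F, phi N v b y = ∑ b ∈ B, phi N v b y := by
    rw [hB]
    symm
    refine sum_subset (filter_subset _ _) fun b hb hbn => ?_
    by_contra h
    exact hbn (mem_filter.mpr ⟨hb, h⟩)
  have h2 : ∑ b ∈ B, phi N v b y ≤ #B := by
    calc ∑ b ∈ B, phi N v b y ≤ ∑ _b ∈ B, (1 : ℝ) := sum_le_sum fun b _ => phi_le_one _ _ _ _
      _ = #B := by simp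
  calc G N s a j y * ∑ b ∈ F, phi N v b y ≤ 1 * #B := by
        rw [h1]
        exact mul_le_mul (G_le_one _ _ _ _ _) h2 (sum_nonneg fun _ _ => phi_nonneg _ _ _ _)
          zero_le_one
    _ ≤ _ := by
        rw [one_mul]
        exact_mod_cast hBc

open Classical in
/-- the family of images of test functions -/
noncomputable def fam (T : C(Fin n → Ball κ, ℝ) →L[ℝ] C(Fin m → Ball κ, ℝ)) (N : Fin n → ℕ)
    (s : ℕ → Fin n) (a : ℕ → κ) (j : ℕ) (v : Fin n) (b : κ) : C(Fin m → Ball κ, ℝ) :=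
  if b ∈ (range j).image a then 0 else T (G N s a j * phi N v b)

theorem fam_congr (T : C(Fin n → Ball κ, ℝ) →L[ℝ] C(Fin m → Ball κ, ℝ)) (N : Fin n → ℕ)
    (s : ℕ → Fin n) (a a' : ℕ → κ) (j : ℕ) (h : ∀ i < j, a i = a' i) (v : Fin n) :
    fam T N s a j v = fam T N s a' j v := by
  classical
  funext b
  unfold fam
  have h1 : (range j).image a = (range j).image a' :=
    image_congr fun i hi => h i (mem_range.mp (mem_coe.mp hi))
  rw [h1, G_congr N s a a' j h]

theorem fam_bound (T : C(Fin n → Ball κ, ℝ) →L[ℝ] C(Fin m → Ball κ, ℝ)) {N : Fin n → ℕ}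
    {s : ℕ → Fin n} {a : ℕ → κ} {j : ℕ}
    (hinj : ∀ i < j, ∀ i' < j, a i = a i' → i = i') (v : Fin n) (F : Finset κ)
    (z : Fin m → Ball κ) :
    ∑ b ∈ F, |fam T N s a j v b z| ≤ ‖T‖ * ((N v - #{i ∈ range j | s i = v} : ℕ) : ℝ) := by
  classical
  set F' : Finset κ := {b ∈ F | b ∉ (range j).image a} with hF'
  have hF'' : ∀ b ∈ F', ∀ i < j, a i ≠ b := by
    rintro b hb i hi rfl
    exact (mem_filter.mp hb).2 (mem_image_of_mem _ (mem_range.mpr hi))
  let σ : κ → ℝ := fun b => if 0 ≤ T (G N s a j * phi N v b) z then 1 else -1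
  have hσ : ∀ b, |σ b| ≤ 1 := by
    intro b
    simp only [σ]
    split_ifs <;> simp
  have h1 : ∑ b ∈ F, |fam T N s a j v b z| =
      T (∑ b ∈ F', σ b • (G N s a j * phi N v b)) z := by
    rw [map_sum, ContinuousMap.sum_apply]
    have h2 : ∑ b ∈ F, |fam T N s a j v b z| = ∑ b ∈ F', |fam T N s a j v b z| := by
      symm
      refine sum_subset (filter_subset _ _) fun b hb hbn => ?_
      have h3 : b ∈ (range j).image a := by
        by_contra h
        exact hbn (mem_filter.mpr ⟨hb, h⟩)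
      unfold fam
      rw [if_pos h3]
      simp
    rw [h2]
    refine sum_congr rfl fun b hb => ?_
    rw [map_smul, ContinuousMap.smul_apply, smul_eq_mul]
    unfold fam
    rw [if_neg (mem_filter.mp hb).2]
    simp only [σ]
    split_ifs with h
    · rw [one_mul, abs_of_nonneg h]
    · rw [neg_one_mul, abs_of_neg (lt_of_not_ge h)]
  rw [h1]
  calc T (∑ b ∈ F', σ b • (G N s a j * phi N v b)) z
      ≤ ‖T (∑ b ∈ F', σ b • (G N s a j * phi N v b)) z‖ := le_abs_self _
    _ ≤ ‖T (∑ b ∈ F', σ b • (G N s a j * phi N v b))‖ := ContinuousMap.norm_coe_le_norm _ z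
    _ ≤ ‖T‖ * ‖∑ b ∈ F', σ b • (G N s a j * phi N v b)‖ := T.le_opNorm _
    _ ≤ ‖T‖ * ((N v - #{i ∈ range j | s i = v} : ℕ) : ℝ) := by
        refine mul_le_mul_of_nonneg_left ?_ (norm_nonneg T)
        refine (ContinuousMap.norm_le _ (Nat.cast_nonneg _)).mpr fun y => ?_
        rw [ContinuousMap.sum_apply, Real.norm_eq_abs]
        refine (abs_sum_le_sum_abs _ _).trans ?_
        refine le_trans ?_ (card_bound hinj v F' hF'' y)
        rw [mul_sum]
        refine sum_le_sum fun b _ => ?_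
        rw [ContinuousMap.smul_apply, smul_eq_mul, abs_mul, ContinuousMap.mul_apply, abs_mul,
          abs_of_nonneg (G_nonneg _ _ _ _ _), abs_of_nonneg (phi_nonneg _ _ _ _)]
        exact mul_le_of_le_one_left (mul_nonneg (G_nonneg _ _ _ _ _) (phi_nonneg _ _ _ _)) (hσ b)

/-- Realisation of a word. -/
theorem realize [Uncountable κ] (T : C(Fin n → Ball κ, ℝ) →L[ℝ] C(Fin m → Ball κ, ℝ))
    (N : Fin n → ℕ) (s : ℕ → Fin n) (A : ℕ) {ε δ : ℝ} (hε : 0 < ε)
    (hA : ∀ x : ℕ, ‖T‖ * x / ((A * x + 1 : ℕ) : ℝ) + 3 * ε < δ) (L : ℕ) :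
    ∃ (a : ℕ → κ) (Q : ℕ → Finset κ), (∀ i < L, ∀ i' < L, a i = a i' → i = i') ∧
      (∀ i i', i ≤ i' → i' ≤ L → Q i ⊆ Q i') ∧
      ∀ l < L, ∀ j ≤ l, ∀ z : Fin m → Ball κ, δ ≤ |T (G N s a j * phi N (s l) (a l)) z| →
        ∃ k, 1 - ∑ γ ∈ Q j, |(z k).1 γ| <
          (A * ((N (s l) - #{i ∈ range j | s i = s l} : ℕ) : ℝ) + 1) *
            (∑ γ ∈ Q (l + 1), |(z k).1 γ| - ∑ γ ∈ Q l, |(z k).1 γ|) := by
  classical
  suffices H : ∀ L, ∃ (a : ℕ → κ) (Q : ℕ → Finset κ) (I : Fin n → Set κ),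
      (∀ v, ¬ (I v).Countable) ∧ (∀ i < L, ∀ i' < L, a i = a i' → i = i') ∧
      (∀ i i', i ≤ i' → i' ≤ L → Q i ⊆ Q i') ∧
      (∀ j ≤ L, ∀ v, ∃ d : NFU (fam T N s a j v) ε (I v), d.rt ⊆ Q j) ∧
      ∀ l < L, ∀ j ≤ l, ∀ z : Fin m → Ball κ, δ ≤ |T (G N s a j * phi N (s l) (a l)) z| →
        ∃ k, 1 - ∑ γ ∈ Q j, |(z k).1 γ| <
          (A * ((N (s l) - #{i ∈ range j | s i = s l} : ℕ) : ℝ) + 1) *
            (∑ γ ∈ Q (l + 1), |(z k).1 γ| - ∑ γ ∈ Q l, |(z k).1 γ|) by
    obtain ⟨a, Q, I, h1, h2, h3, h4, h5⟩ := H L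
    exact ⟨a, Q, h2, h3, h5⟩
  intro L
  induction L with
  | zero =>
    have h0 : ¬ (Set.univ : Set κ).Countable := by
      rw [Set.countable_univ_iff]
      exact not_countable
    let a : ℕ → κ := fun _ => Classical.arbitrary κ
    have hI : ∀ v, ∃ I : Set κ, ¬ I.Countable ∧ Nonempty (NFU (fam T N s a 0 v) ε I) := by
      intro v
      obtain ⟨I, -, h1, h2⟩ := exists_NFU (fam T N s a 0 v) hε h0
      exact ⟨I, h1, h2⟩
    choose I hI1 hI2 using hI
    let d : ∀ v, NFU (fam T N s a 0 v) ε (I v) := fun v => Classical.choice (hI2 v)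
    refine ⟨a, fun _ => univ.biUnion fun v => (d v).rt, I, hI1, fun i hi => absurd hi
      (Nat.not_lt_zero i), fun _ _ _ _ => subset_rfl, ?_, fun l hl => absurd hl
      (Nat.not_lt_zero l)⟩
    intro j hj v
    obtain rfl : j = 0 := by omega
    exact ⟨d v, subset_biUnion_of_mem (fun v => (d v).rt) (mem_univ v)⟩
  | succ L ih =>
    obtain ⟨a, Q, I, hI, ha, hQ, hd, hH⟩ := ih
    choose d hdQ using fun (j : Fin (L + 1)) => hd j (by have := j.2; omega) (s L)
    -- the new element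
    obtain ⟨b, hbI, hbnew, hba⟩ : ∃ b ∈ I (s L), (∀ j : Fin (L + 1), Disjoint ((d j).nw b) (Q L)) ∧
        ∀ i < L, a i ≠ b := by
      by_contra hcon
      push Not at hcon
      apply hI (s L)
      have h1 : (⋃ j : Fin (L + 1), {i ∈ I (s L) | ∃ x ∉ (d j).J, (d j).e i x ∈ Q L}).Countable :=
        Set.countable_iUnion fun j => (d j).cnt (Q L)
      have h2 : (((range L).image a : Finset κ) : Set κ).Countable := Finset.countable_toSet _
      refine (h1.union h2).mono fun b hb => ?_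
      by_cases h3 : ∀ j : Fin (L + 1), Disjoint ((d j).nw b) (Q L)
      · obtain ⟨i, hi, rfl⟩ := hcon b hb h3
        exact Or.inr (mem_coe.mpr (mem_image_of_mem _ (mem_range.mpr hi)))
      · push Not at h3
        obtain ⟨j, hj⟩ := h3
        refine Or.inl (Set.mem_iUnion.mpr ⟨j, hb, ?_⟩)
        rw [not_disjoint_iff] at hj
        obtain ⟨γ, hγ, hγQ⟩ := hj
        obtain ⟨x, hx, rfl⟩ := mem_image.mp hγ
        exact ⟨x, mem_compl.mp hx, hγQ⟩
    set a' : ℕ → κ := Function.update a L b with ha'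
    have ha'lt : ∀ i < L, a' i = a i := fun i hi => Function.update_of_ne hi.ne _ _
    have ha'L : a' L = b := Function.update_self _ _ _
    -- the new index sets
    have hI' : ∀ v, ∃ I' ⊆ I v, ¬ I'.Countable ∧ Nonempty (NFU (fam T N s a' (L + 1) v) ε I') :=
      fun v => exists_NFU (fam T N s a' (L + 1) v) hε (hI v)
    choose I' hI'1 hI'2 hI'3 using hI'
    let d' : ∀ v, NFU (fam T N s a' (L + 1) v) ε (I' v) := fun v => Classical.choice (hI'3 v)
    set QL : Finset κ := Q L ∪ ((univ : Finset (Fin (L + 1))).biUnion fun j => (d j).nw b) ∪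
      univ.biUnion fun v => (d' v).rt with hQL
    set Q' : ℕ → Finset κ := Function.update Q (L + 1) QL with hQ'
    have hQ'le : ∀ i ≤ L, Q' i = Q i := fun i hi => Function.update_of_ne (by omega) _ _
    have hQ'L : Q' (L + 1) = QL := Function.update_self _ _ _
    have hQL1 : Q L ⊆ QL := subset_union_left.trans subset_union_left
    refine ⟨a', Q', I', hI'2, ?_, ?_, ?_, ?_⟩
    · intro i hi i' hi' h
      rcases Nat.lt_succ_iff_lt_or_eq.mp hi with hi | rfl
      · rcases Nat.lt_succ_iff_lt_or_eq.mp hi' with hi' | rfl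
        · rw [ha'lt i hi, ha'lt i' hi'] at h
          exact ha i hi i' hi' h
        · rw [ha'lt i hi, ha'L] at h
          exact absurd h (hba i hi)
      · rcases Nat.lt_succ_iff_lt_or_eq.mp hi' with hi' | rfl
        · rw [ha'lt i' hi', ha'L] at h
          exact absurd h.symm (hba i' hi')
        · rfl
    · intro i i' hii' hi'
      rcases Nat.lt_or_ge L i' with h | h
      · obtain rfl : i' = L + 1 := by omega
        rcases Nat.lt_or_ge L i with h' | h'
        · obtain rfl : i = L + 1 := by omega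
          exact subset_rfl
        · rw [hQ'L, hQ'le i h']
          exact (hQ i L h' le_rfl).trans hQL1
      · rw [hQ'le i' h, hQ'le i (hii'.trans h)]
        exact hQ i i' hii' h
    · intro j hj v
      rcases Nat.lt_or_ge L j with h | h
      · obtain rfl : j = L + 1 := by omega
        refine ⟨d' v, ?_⟩
        rw [hQ'L]
        exact (subset_biUnion_of_mem (fun v => (d' v).rt) (mem_univ v)).trans subset_union_right
      · obtain ⟨d0, hd0⟩ := hd j h v
        have h1 : fam T N s a' j v = fam T N s a j v :=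
          fam_congr T N s a' a j (fun i hi => ha'lt i (by omega)) v
        rw [h1, hQ'le j h]
        exact ⟨d0.restrict (hI'1 v), hd0⟩
    · intro l hl j hj z hz
      rcases Nat.lt_succ_iff_lt_or_eq.mp hl with hl | rfl
      · rw [ha'lt l hl, G_congr N s a' a j (fun i hi => ha'lt i (by omega))] at hz
        obtain ⟨k, hk⟩ := hH l hl j hj z hz
        refine ⟨k, ?_⟩
        rw [hQ'le j (by omega), hQ'le (l + 1) (by omega), hQ'le l (by omega)]
        exact hk
      · let jj : Fin (l + 1) := ⟨j, by omega⟩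
        have h1 : fam T N s a j (s l) b = T (G N s a j * phi N (s l) b) := by
          unfold fam
          rw [if_neg]
          intro hmem
          obtain ⟨i, hi, hib⟩ := mem_image.mp hmem
          exact hba i (by have := mem_range.mp hi; omega) hib
        rw [ha'L, G_congr N s a' a j (fun i hi => ha'lt i (by omega)), ← h1] at hz
        obtain ⟨k, hk⟩ := (d jj).heavy (hI (s l)) (C := ‖T‖ * ((N (s l) -
            #{i ∈ range j | s i = s l} : ℕ) : ℝ))
          (fun F z => fam_bound T (fun i hi i' hi' h => ha i (by omega) i' (by omega) h) (s l) F z)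
          hbI z (q := A * (N (s l) - #{i ∈ range j | s i = s l}) + 1) (Nat.succ_pos _)
          ((hA _).trans_le hz)
        refine ⟨k, ?_⟩
        rw [hQ'le j hj, hQ'L, hQ'le l le_rfl]
        have h2 : ∑ γ ∈ (d jj).rt, |(z k).1 γ| ≤ ∑ γ ∈ Q j, |(z k).1 γ| :=
          sum_le_sum_of_subset_of_nonneg (hdQ jj) fun _ _ _ => abs_nonneg _
        have h3 : ∑ γ ∈ (d jj).nw b, |(z k).1 γ| ≤
            ∑ γ ∈ QL, |(z k).1 γ| - ∑ γ ∈ Q l, |(z k).1 γ| := by
          have h4 : ∑ γ ∈ Q l ∪ (d jj).nw b, |(z k).1 γ| ≤ ∑ γ ∈ QL, |(z k).1 γ| := by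
            refine sum_le_sum_of_subset_of_nonneg ?_ fun _ _ _ => abs_nonneg _
            refine union_subset hQL1 ?_
            exact ((subset_biUnion_of_mem (fun j => (d j).nw b) (mem_univ jj)).trans
              subset_union_right).trans subset_union_left
          rw [sum_union (hbnew jj).symm] at h4
          linarith
        have h5 : (((A * (N (s l) - #{i ∈ range j | s i = s l}) + 1 : ℕ)) : ℝ) =
            A * ((N (s l) - #{i ∈ range j | s i = s l} : ℕ) : ℝ) + 1 := by push_cast; ring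
        rw [h5] at hk
        have h6 : (A * ((N (s l) - #{i ∈ range j | s i = s l} : ℕ) : ℝ) + 1) *
            ∑ γ ∈ (d jj).nw b, |(z k).1 γ| ≤
            (A * ((N (s l) - #{i ∈ range j | s i = s l} : ℕ) : ℝ) + 1) *
            (∑ γ ∈ QL, |(z k).1 γ| - ∑ γ ∈ Q l, |(z k).1 γ|) :=
          mul_le_mul_of_nonneg_left h3 (by positivity)
        linarith

end Pool.Agent.J4.H69.BK
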